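import Mathlib
import Pool.Agent.Lib.MP_f8d2b9_co.Main

set_option autoImplicit false

open Pool.Agent.Lib.MP_f8d2b9_co

theorem Pool.Agent.Variants.MP_f8d2b9_co.rotation_form :
    ∃ c k : ℕ, 1 ≤ c ∧ 1 ≤ k ∧
      ∀ (V : Type) [Fintype V] (G : SimpleGraph V), IsOnePlanar G →
        ∃ (ι : Type) (_ : Finite ι) (T : SimpleGraph ι) (B : ι → Finset V),
          IsTreeDecomp G T B ∧ (∀ x, (B x).card ≤ c * treewidth G + 1) ∧
          ∀ x, treewidth (G.induce (B x : Set V)) ≤ k := by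
  refine ⟨2 * (3 * (4323 * 2161) * 2161), 359, by norm_num, by norm_num, ?_⟩
  rintro V _ G ⟨m, e, he, hG, hH⟩
  obtain ⟨ι, hι, T, B, hT, hB⟩ := exists_optimal G
  rcases Nat.eq_zero_or_pos (treewidth G) with h0 | h0
  · refine ⟨ι, hι, T, B, hT, fun x => (hB x).trans (by omega), fun x => ?_⟩
    refine treewidth_induce_le ((Has.leaf G (B x) ?_).mono (fun _ h => h) (Set.empty_subset _))
    have := hB x
    omega
  · obtain ⟨D, hD, -⟩ := main_has hH he hG (treewidth G + 1) (by omega)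
      (has_of_isTreeDecomp hT hB)
    refine ⟨D.ι, D.fin, D.T, D.B, D.isTreeDecomp, fun x => ?_, fun x => ?_⟩
    · have := (hD x).1
      omega
    · exact treewidth_induce_le (hD x).2
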